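import Pool.Agent.Helper90.TwinU

/-!
# Residues mod 4 of consecutive rough twin pairs

The analogue of the question for pairs `(n, n+2)` free of prime factors `≤ z`, where `z → ∞` and
`z` may be as large as a small fixed power of `x` (so that `n` and `n + 2` have a bounded number
of prime factors).
-/

set_option autoImplicit false

open Finset Filter Topology

namespace Pool.Agent.Results.MP_74f661_nt.RoughTwinTransitions

/-- `(n, n + 2)` is a `z`-rough pair: neither `n` nor `n + 2` has a prime factor `≤ z`. -/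
def RoughTwin (z n : ℕ) : Prop := ∀ p : ℕ, p.Prime → p ≤ z → ¬ p ∣ n ∧ ¬ p ∣ (n + 2)

/-- For the increasing enumeration `s_0 < s_1 < …` of the numbers satisfying `P`: the number of
indices `i` with `s_i ≤ x` and `s_i ≡ a (mod 4)`. -/
noncomputable def count₁ (P : ℕ → Prop) (x a : ℕ) : ℕ :=
  {i : ℕ | Nat.nth P i ≤ x ∧ Nat.nth P i % 4 = a}.ncard

/-- The number of indices `i` with `s_i ≤ x`, `s_i ≡ a` and `s_{i+1} ≡ b (mod 4)`. -/
noncomputable def count₂ (P : ℕ → Prop) (x a b : ℕ) : ℕ :=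
  {i : ℕ | Nat.nth P i ≤ x ∧ Nat.nth P i % 4 = a ∧ Nat.nth P (i + 1) % 4 = b}.ncard

/-- The transition frequency `δ(x; 4; a|b)`. -/
noncomputable def delta (P : ℕ → Prop) (x a b : ℕ) : ℝ :=
  (count₂ P x a b : ℝ) / (count₁ P x a : ℝ)

open Pool.Agent.Helper90.Twin

theorem roughTwin_iff {z : ℕ} (hz : 3 ≤ z) (n : ℕ) :
    RoughTwin z n ↔ n % 6 = 5 ∧ Xz z ((n - 5) / 6) = 1 := by
  constructor
  · intro h
    have h2 := h 2 (by norm_num) (by omega)
    have h3 := h 3 (by norm_num) (by omega)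
    have h6 : n % 6 = 5 := by
      have e1 : n % 2 = 1 := by omega
      have e2 : n % 3 = 2 := by omega
      omega
    refine ⟨h6, ?_⟩
    unfold Xz XX
    apply Finset.prod_eq_one
    intro p hp
    rw [mem_Ps] at hp
    have hp' := h p hp.2.2 hp.2.1
    have e1 : 6 * ((n - 5) / 6) + 5 = n := by omega
    have e2 : 6 * ((n - 5) / 6) + 7 = n + 2 := by omega
    have : ¬ bad p ((n - 5) / 6) := by
      unfold bad
      rw [e1, e2]
      tauto
    unfold yy
    rw [if_neg this]
    ring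
  · rintro ⟨h6, hX⟩ p hp hpz
    have e1 : 6 * ((n - 5) / 6) + 5 = n := by omega
    have e2 : 6 * ((n - 5) / 6) + 7 = n + 2 := by omega
    rcases Nat.lt_or_ge p 5 with h | h
    · have hp2 := hp.two_le
      have h4 : p ≠ 4 := by
        rintro rfl
        norm_num at hp
      have : p = 2 ∨ p = 3 := by omega
      rcases this with rfl | rfl <;> omega
    · have hmem : p ∈ Ps z := mem_Ps.2 ⟨h, hpz, hp⟩
      by_contra hcon
      have hb : bad p ((n - 5) / 6) := by
        unfold bad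
        rw [e1, e2]
        tauto
      have : Xz z ((n - 5) / 6) = 0 := by
        unfold Xz XX
        apply Finset.prod_eq_zero hmem
        unfold yy
        rw [if_pos hb]
        ring
      rw [this] at hX
      norm_num at hX

theorem roughTwin_infinite (z : ℕ) : (Set.ofPred (RoughTwin z)).Infinite := by
  rw [Set.infinite_iff_exists_gt]
  intro a
  have hf := Nat.factorial_pos z
  have hn : a + 2 ≤ (a + 2) * z.factorial := Nat.le_mul_of_pos_right _ hf
  refine ⟨(a + 2) * z.factorial - 1, ?_, by omega⟩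
  intro p hp hpz
  have h1 : p ∣ (a + 2) * z.factorial := ((hp.dvd_factorial).2 hpz).mul_left _
  constructor
  · intro h2
    have h3 : p ∣ (a + 2) * z.factorial - ((a + 2) * z.factorial - 1) := Nat.dvd_sub h1 h2
    have h4 : (a + 2) * z.factorial - ((a + 2) * z.factorial - 1) = 1 := by omega
    rw [h4] at h3
    exact hp.one_lt.ne' (Nat.dvd_one.1 h3)
  · intro h2
    have h3 : p ∣ ((a + 2) * z.factorial - 1 + 2) - (a + 2) * z.factorial := Nat.dvd_sub h2 h1
    have h4 : ((a + 2) * z.factorial - 1 + 2) - (a + 2) * z.factorial = 1 := by omega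
    rw [h4] at h3
    exact hp.one_lt.ne' (Nat.dvd_one.1 h3)

section Fixed

variable {z : ℕ} (hz : 3 ≤ z)

open Classical in
/-- sums over the enumeration versus sums over the sifted set -/
theorem sum_nth (hz : 3 ≤ z) (x : ℕ) (F : ℕ → ℝ) :
    ∑ i ∈ range (Nat.count (RoughTwin z) (x + 1)), F (Nat.nth (RoughTwin z) i)
      = ∑ k ∈ range ((x + 1) / 6), Xz z k * F (6 * k + 5) := by
  have hinf := roughTwin_infinite z
  have h1 : ∑ i ∈ range (Nat.count (RoughTwin z) (x + 1)), F (Nat.nth (RoughTwin z) i)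
      = ∑ n ∈ (range (x + 1)).filter (RoughTwin z), F n := by
    apply Finset.sum_nbij (fun i => Nat.nth (RoughTwin z) i)
    · intro i hi
      rw [mem_range] at hi
      rw [Finset.mem_filter, mem_range]
      refine ⟨?_, Nat.nth_mem_of_infinite hinf i⟩
      by_contra hcon
      push Not at hcon
      have := Nat.count_monotone (RoughTwin z) hcon
      rw [Nat.count_nth_of_infinite hinf] at this
      omega
    · intro i _ j _ hij
      exact (Nat.nth_strictMono hinf).injective hij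
    · intro n hn
      rw [Finset.mem_coe, Finset.mem_filter, mem_range] at hn
      refine ⟨Nat.count (RoughTwin z) n, ?_, Nat.nth_count hn.2⟩
      rw [Finset.mem_coe, mem_range]
      exact Nat.count_strict_mono hn.2 hn.1
    · intro i _
      rfl
  have h2 : ∑ k ∈ range ((x + 1) / 6), Xz z k * F (6 * k + 5)
      = ∑ k ∈ (range ((x + 1) / 6)).filter (fun k => Xz z k = 1), F (6 * k + 5) := by
    rw [Finset.sum_filter]
    apply Finset.sum_congr rfl
    intro k _
    rcases (sieveSys z).XX_zero_one k with h | h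
    · have h' : Xz z k = 0 := h
      rw [h']
      simp
    · have h' : Xz z k = 1 := h
      rw [h']
      simp
  rw [h1, h2]
  symm
  apply Finset.sum_nbij (fun k => 6 * k + 5)
  · intro k hk
    rw [Finset.mem_filter, mem_range] at hk
    rw [Finset.mem_filter, mem_range, roughTwin_iff hz]
    refine ⟨by omega, by omega, ?_⟩
    have : (6 * k + 5 - 5) / 6 = k := by omega
    rw [this]
    exact hk.2
  · intro k _ l _ h
    simp only at h
    omega
  · intro n hn
    rw [Finset.mem_coe, Finset.mem_filter, mem_range, roughTwin_iff hz] at hn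
    refine ⟨(n - 5) / 6, ?_, by simp only; omega⟩
    rw [Finset.mem_coe, Finset.mem_filter, mem_range]
    exact ⟨by omega, hn.2.2⟩
  · intro k _
    rfl

open Classical in
/-- the index of the next element, in the `k`-coordinate -/
noncomputable def nxt (z k : ℕ) : ℕ :=
  (Nat.nth (RoughTwin z) (Nat.count (RoughTwin z) (6 * k + 5) + 1) - 5) / 6

theorem roughTwin_of_X (hz : 3 ≤ z) {k : ℕ} (hk : Xz z k = 1) : RoughTwin z (6 * k + 5) := by
  rw [roughTwin_iff hz]
  refine ⟨by omega, ?_⟩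
  have : (6 * k + 5 - 5) / 6 = k := by omega
  rw [this]
  exact hk

open Classical in
theorem nxt_spec (hz : 3 ≤ z) {k : ℕ} (hk : Xz z k = 1) :
    Nat.nth (RoughTwin z) (Nat.count (RoughTwin z) (6 * k + 5) + 1) = 6 * nxt z k + 5 ∧
      k < nxt z k ∧ Xz z (nxt z k) = 1 := by
  have hinf := roughTwin_infinite z
  have h1 := roughTwin_of_X hz hk
  set n' := Nat.nth (RoughTwin z) (Nat.count (RoughTwin z) (6 * k + 5) + 1) with hn'
  have h2 : RoughTwin z n' := Nat.nth_mem_of_infinite hinf _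
  have h3 : 6 * k + 5 < n' := by
    have := Nat.nth_strictMono hinf (Nat.lt_succ_self (Nat.count (RoughTwin z) (6 * k + 5)))
    rwa [Nat.nth_count h1] at this
  have h4 := (roughTwin_iff hz n').1 h2
  have h5 : nxt z k = (n' - 5) / 6 := rfl
  rw [h5]
  exact ⟨by omega, by omega, h4.2⟩

open Classical in
theorem nxt_between (hz : 3 ≤ z) {k : ℕ} (hk : Xz z k = 1) (u : ℕ) (hu1 : k < u)
    (hu2 : u < nxt z k) : Xz z u = 0 := by
  rcases (sieveSys z).XX_zero_one u with h | h
  · exact h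
  · exfalso
    have hinf := roughTwin_infinite z
    have h1 := roughTwin_of_X hz hk
    have h2 := roughTwin_of_X hz (show Xz z u = 1 from h)
    obtain ⟨h3, -, -⟩ := nxt_spec hz hk
    have h4 : 6 * u + 5 < Nat.nth (RoughTwin z) (Nat.count (RoughTwin z) (6 * k + 5) + 1) := by
      rw [h3]
      omega
    have h5 := Nat.le_nth_of_lt_nth_succ h4 h2
    rw [Nat.nth_count h1] at h5
    omega

/-- the sign of an element of the enumeration -/
noncomputable def gg (z i : ℕ) : ℝ := (-1 : ℝ) ^ ((Nat.nth (RoughTwin z) i - 5) / 6)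

theorem gg_abs (z i : ℕ) : |gg z i| = 1 := by
  unfold gg
  rw [abs_pow, abs_neg, abs_one, one_pow]

theorem ind_mod {n : ℕ} (hn : n % 6 = 5) {a : ℕ} (ha : a = 1 ∨ a = 3) :
    (if n % 4 = a then (1 : ℝ) else 0)
      = (1 + (if a = 1 then (1 : ℝ) else -1) * (-1 : ℝ) ^ ((n - 5) / 6)) / 2 := by
  rcases Nat.even_or_odd ((n - 5) / 6) with h | h
  · rw [h.neg_one_pow]
    have h1 : n % 4 = 1 := by
      rw [Nat.even_iff] at h
      omega
    rcases ha with rfl | rfl
    · simp [h1]
    · simp [h1]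
  · rw [h.neg_one_pow]
    have h1 : n % 4 = 3 := by
      rw [Nat.odd_iff] at h
      omega
    rcases ha with rfl | rfl
    · simp [h1]
    · simp [h1]

theorem nth_mod_six (hz : 3 ≤ z) (i : ℕ) : Nat.nth (RoughTwin z) i % 6 = 5 :=
  ((roughTwin_iff hz _).1 (Nat.nth_mem_of_infinite (roughTwin_infinite z) i)).1

open Classical in
theorem nth_le_iff (x i : ℕ) :
    Nat.nth (RoughTwin z) i ≤ x ↔ i < Nat.count (RoughTwin z) (x + 1) := by
  have hinf := roughTwin_infinite z
  constructor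
  · intro h
    have h1 := Nat.count_strict_mono (p := RoughTwin z) (Nat.nth_mem_of_infinite hinf i)
      (Nat.lt_succ_of_le h)
    rwa [Nat.count_nth_of_infinite hinf] at h1
  · intro h
    by_contra hcon
    push Not at hcon
    have := Nat.count_monotone (RoughTwin z) (Nat.succ_le_of_lt hcon)
    rw [Nat.count_nth_of_infinite hinf] at this
    exact absurd h (by simpa using this)

open Classical in
theorem count₁_eq (hz : 3 ≤ z) (x : ℕ) {a : ℕ} (ha : a = 1 ∨ a = 3) :
    (count₁ (RoughTwin z) x a : ℝ)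
      = ∑ i ∈ range (Nat.count (RoughTwin z) (x + 1)),
          (1 + (if a = 1 then (1 : ℝ) else -1) * gg z i) / 2 := by
  unfold count₁
  have h1 : {i : ℕ | Nat.nth (RoughTwin z) i ≤ x ∧ Nat.nth (RoughTwin z) i % 4 = a}
      = ↑((range (Nat.count (RoughTwin z) (x + 1))).filter
          (fun i => Nat.nth (RoughTwin z) i % 4 = a)) := by
    ext i
    simp only [Set.mem_ofPred_eq, Finset.coe_filter, mem_range]
    rw [nth_le_iff]
  rw [h1, Set.ncard_coe_finset, Finset.card_filter]
  push_cast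
  apply Finset.sum_congr rfl
  intro i _
  rw [ind_mod (nth_mod_six hz i) ha]
  rfl

open Classical in
theorem count₂_eq (hz : 3 ≤ z) (x : ℕ) {a b : ℕ} (ha : a = 1 ∨ a = 3) (hb : b = 1 ∨ b = 3) :
    (count₂ (RoughTwin z) x a b : ℝ)
      = ∑ i ∈ range (Nat.count (RoughTwin z) (x + 1)),
          ((1 + (if a = 1 then (1 : ℝ) else -1) * gg z i) / 2) *
          ((1 + (if b = 1 then (1 : ℝ) else -1) * gg z (i + 1)) / 2) := by
  unfold count₂
  have h1 : {i : ℕ | Nat.nth (RoughTwin z) i ≤ x ∧ Nat.nth (RoughTwin z) i % 4 = a ∧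
      Nat.nth (RoughTwin z) (i + 1) % 4 = b}
      = ↑((range (Nat.count (RoughTwin z) (x + 1))).filter
          (fun i => Nat.nth (RoughTwin z) i % 4 = a ∧ Nat.nth (RoughTwin z) (i + 1) % 4 = b)) := by
    ext i
    simp only [Set.mem_ofPred_eq, Finset.coe_filter, mem_range]
    rw [nth_le_iff]
  rw [h1, Set.ncard_coe_finset, Finset.card_filter]
  push_cast
  apply Finset.sum_congr rfl
  intro i _
  have e : (if Nat.nth (RoughTwin z) i % 4 = a ∧ Nat.nth (RoughTwin z) (i + 1) % 4 = b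
      then (1 : ℝ) else 0)
      = (if Nat.nth (RoughTwin z) i % 4 = a then (1 : ℝ) else 0)
        * (if Nat.nth (RoughTwin z) (i + 1) % 4 = b then (1 : ℝ) else 0) := by
    by_cases h2 : Nat.nth (RoughTwin z) i % 4 = a <;>
      by_cases h3 : Nat.nth (RoughTwin z) (i + 1) % 4 = b <;> simp [h2, h3]
  rw [e, ind_mod (nth_mod_six hz i) ha, ind_mod (nth_mod_six hz (i + 1)) hb]
  rfl

open Classical in
theorem delta_bound (hz : 3 ≤ z) (x : ℕ) {ε : ℝ} (hε : ε ≤ 1 / 4)
    (h1 : 1 ≤ ε * ((((x + 1) / 6 : ℕ) : ℝ) * Gz z))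
    (h2 : |∑ t ∈ range ((x + 1) / 6), Xz z t - (((x + 1) / 6 : ℕ) : ℝ) * Gz z|
      ≤ ε * ((((x + 1) / 6 : ℕ) : ℝ) * Gz z))
    (h3 : |∑ t ∈ range ((x + 1) / 6), (-1 : ℝ) ^ t * Xz z t|
      ≤ ε * ((((x + 1) / 6 : ℕ) : ℝ) * Gz z))
    (h4 : |∑ t ∈ range ((x + 1) / 6), Xz z t * (-1 : ℝ) ^ (nxt z t - t)|
      ≤ ε * ((((x + 1) / 6 : ℕ) : ℝ) * Gz z))
    {a b : ℕ} (ha : a = 1 ∨ a = 3) (hb : b = 1 ∨ b = 3) :
    |delta (RoughTwin z) x a b - 1 / 2| ≤ 6 * ε := by
  set W : ℝ := (((x + 1) / 6 : ℕ) : ℝ) * Gz z with hW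
  set M := Nat.count (RoughTwin z) (x + 1) with hM
  set S1 := ∑ i ∈ range M, gg z i with hS1
  set S2 := ∑ i ∈ range M, gg z i * gg z (i + 1) with hS2
  have hW0 : 0 ≤ W := by
    have := Gz_pos z
    positivity
  have hε0 : 0 < ε := by
    by_contra hcon
    push Not at hcon
    nlinarith
  have hWpos : 0 < W := by
    by_contra hcon
    push Not at hcon
    nlinarith
  -- translate the sums
  have hMsum : (M : ℝ) = ∑ t ∈ range ((x + 1) / 6), Xz z t := by
    have := sum_nth hz x (fun _ => (1 : ℝ))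
    simp only [Finset.sum_const, Finset.card_range, nsmul_eq_mul, mul_one] at this
    exact this
  have hS1sum : S1 = ∑ t ∈ range ((x + 1) / 6), (-1 : ℝ) ^ t * Xz z t := by
    have := sum_nth hz x (fun n => (-1 : ℝ) ^ ((n - 5) / 6))
    rw [hS1]
    unfold gg
    rw [this]
    apply Finset.sum_congr rfl
    intro k _
    have e : (6 * k + 5 - 5) / 6 = k := by omega
    simp only [e]
    ring
  have hS2sum : S2 = ∑ t ∈ range ((x + 1) / 6), Xz z t * (-1 : ℝ) ^ (nxt z t - t) := by
    have := sum_nth hz x (fun n => (-1 : ℝ) ^ ((n - 5) / 6) *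
      (-1 : ℝ) ^ ((Nat.nth (RoughTwin z) (Nat.count (RoughTwin z) n + 1) - 5) / 6))
    have e0 : S2 = ∑ i ∈ range M, (-1 : ℝ) ^ ((Nat.nth (RoughTwin z) i - 5) / 6) *
      (-1 : ℝ) ^ ((Nat.nth (RoughTwin z) (Nat.count (RoughTwin z) (Nat.nth (RoughTwin z) i) + 1)
        - 5) / 6) := by
      rw [hS2]
      apply Finset.sum_congr rfl
      intro i _
      unfold gg
      rw [Nat.count_nth_of_infinite (roughTwin_infinite z)]
    rw [e0, this]
    apply Finset.sum_congr rfl
    intro k _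
    rcases (sieveSys z).XX_zero_one k with h | h
    · have h' : Xz z k = 0 := h
      rw [h']
      ring
    · have h' : Xz z k = 1 := h
      obtain ⟨h5, h6, h7⟩ := nxt_spec hz h'
      have e : (6 * k + 5 - 5) / 6 = k := by omega
      have e1 : (6 * nxt z k + 5 - 5) / 6 = nxt z k := by omega
      simp only [e, h5, e1]
      congr 1
      have e2 : nxt z k = k + (nxt z k - k) := by omega
      have e3 : (-1 : ℝ) ^ (nxt z k) = (-1 : ℝ) ^ k * (-1 : ℝ) ^ (nxt z k - k) := by
        rw [← pow_add, ← e2]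
      rw [e3, ← mul_assoc, ← mul_pow]
      norm_num
  rw [← hMsum] at h2
  rw [← hS1sum] at h3
  rw [← hS2sum] at h4
  -- the shifted sum
  have hshift : ∑ i ∈ range M, gg z (i + 1) = S1 + gg z M - gg z 0 := by
    have e1 : ∑ i ∈ range (M + 1), gg z i = S1 + gg z M := Finset.sum_range_succ _ _
    have e2 : ∑ i ∈ range (M + 1), gg z i = ∑ i ∈ range M, gg z (i + 1) + gg z 0 :=
      Finset.sum_range_succ' _ _
    linarith
  have hgM := gg_abs z M
  have hg0 := gg_abs z 0
  set εa : ℝ := if a = 1 then (1 : ℝ) else -1 with hεa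
  set εb : ℝ := if b = 1 then (1 : ℝ) else -1 with hεb
  have hεa1 : |εa| = 1 := by
    rw [hεa]
    split_ifs <;> simp
  have hεb1 : |εb| = 1 := by
    rw [hεb]
    split_ifs <;> simp
  have hc1 : (count₁ (RoughTwin z) x a : ℝ) = (M + εa * S1) / 2 := by
    rw [count₁_eq hz x ha, ← Finset.sum_div, Finset.sum_add_distrib, ← Finset.mul_sum]
    simp [hM, hS1, hεa]
  have hc2 : (count₂ (RoughTwin z) x a b : ℝ)
      = (M + εa * S1 + εb * (S1 + gg z M - gg z 0) + εa * εb * S2) / 4 := by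
    rw [count₂_eq hz x ha hb]
    have e1 : ∀ i, ((1 + εa * gg z i) / 2) * ((1 + εb * gg z (i + 1)) / 2)
        = (1 + εa * gg z i + εb * gg z (i + 1) + εa * εb * (gg z i * gg z (i + 1))) / 4 := by
      intro i
      ring
    simp_rw [← hεa, ← hεb, e1]
    rw [← Finset.sum_div, Finset.sum_add_distrib, Finset.sum_add_distrib,
      Finset.sum_add_distrib, ← Finset.mul_sum, ← Finset.mul_sum, ← Finset.mul_sum, hshift]
    simp [hM, hS1, hS2]
  have b1 : |εa * S1| ≤ ε * W := by rw [abs_mul, hεa1, one_mul]; exact h3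
  have b2 : |εb * (S1 + gg z M - gg z 0)| ≤ ε * W + 2 := by
    rw [abs_mul, hεb1, one_mul]
    have e1 : |S1 + gg z M - gg z 0| ≤ |S1| + |gg z M| + |gg z 0| := by
      calc |S1 + gg z M - gg z 0| ≤ |S1 + gg z M| + |gg z 0| := abs_sub _ _
        _ ≤ _ := add_le_add (abs_add_le _ _) le_rfl
    rw [hgM, hg0] at e1
    linarith
  have b3 : |εa * εb * S2| ≤ ε * W := by
    rw [abs_mul, abs_mul, hεa1, hεb1, one_mul, one_mul]
    exact h4
  have hMge : (1 - ε) * W ≤ M := by
    have := (abs_le.1 h2).1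
    linarith
  have b1' := abs_le.1 b1
  have b2' := abs_le.1 b2
  have b3' := abs_le.1 b3
  have hc1ge : W / 4 ≤ (count₁ (RoughTwin z) x a : ℝ) := by
    rw [hc1]
    have : (1 - 2 * ε) * W ≥ (1 / 2) * W := by
      apply mul_le_mul_of_nonneg_right _ hW0
      linarith
    linarith [b1'.1]
  have hc1pos : 0 < (count₁ (RoughTwin z) x a : ℝ) := by linarith
  unfold delta
  have e5 : (count₂ (RoughTwin z) x a b : ℝ) / (count₁ (RoughTwin z) x a : ℝ) - 1 / 2
      = ((count₂ (RoughTwin z) x a b : ℝ) - (count₁ (RoughTwin z) x a : ℝ) / 2)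
        / (count₁ (RoughTwin z) x a : ℝ) := by
    field_simp
  rw [e5, abs_div, abs_of_pos hc1pos, div_le_iff₀ hc1pos]
  have e6 : |(count₂ (RoughTwin z) x a b : ℝ) - (count₁ (RoughTwin z) x a : ℝ) / 2|
      ≤ (ε * W + 2 + ε * W) / 4 := by
    rw [hc1, hc2, abs_le]
    constructor <;> linarith [b2'.1, b2'.2, b3'.1, b3'.2]
  refine e6.trans ?_
  have e7 : 6 * ε * (W / 4) ≤ 6 * ε * (count₁ (RoughTwin z) x a : ℝ) :=
    mul_le_mul_of_nonneg_left hc1ge (by linarith)
  linarith

end Fixed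

/-- **Main theorem.** Order the pairs `(n, n+2)` without prime factors `≤ z` by size, and let
`delta` be the transition frequencies modulo `4` up to `x` of consecutive pairs. For every `ε > 0`
there is a `K` such that all four frequencies are within `ε` of `1/2` as soon as `z` is large and
`x ≥ z ^ K`. -/
theorem result :
    ∀ ε : ℝ, 0 < ε → ∃ K z₀ : ℕ, ∀ z x : ℕ, z₀ ≤ z → z ^ K ≤ x →
      ∀ a b : ℕ, (a = 1 ∨ a = 3) → (b = 1 ∨ b = 3) →
        |delta (RoughTwin z) x a b - 1 / 2| ≤ ε := by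
  intro ε hε
  set ε' : ℝ := min (1 / 4) (ε / 6) with hε'
  have hε0 : 0 < ε' := lt_min (by norm_num) (by positivity)
  have hε1 : ε' ≤ 1 / 4 := min_le_left _ _
  have hε2 : ε' ≤ ε / 6 := min_le_right _ _
  obtain ⟨K, hcore⟩ := core2 hε0
  obtain ⟨z1, hz1⟩ := Filter.eventually_atTop.1 hcore
  refine ⟨K + 1, max z1 7, ?_⟩
  intro z x hz hx a b ha hb
  have h1 : z1 ≤ z := (le_max_left _ _).trans hz
  have h7 : 7 ≤ z := (le_max_right _ _).trans hz
  have hN : z ^ K ≤ (x + 1) / 6 := by
    rw [Nat.le_div_iff_mul_le (by norm_num)]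
    rw [pow_succ] at hx
    have : z ^ K * 6 ≤ z ^ K * z := Nat.mul_le_mul_left _ (by omega)
    omega
  obtain ⟨g1, g2, g3, g4⟩ := hz1 z h1 _ hN
  have hz3 : 3 ≤ z := by omega
  have g4' := g4 (nxt z) (fun t ht => ⟨(nxt_spec hz3 ht).2.1, (nxt_spec hz3 ht).2.2⟩)
    (fun t ht u hu1 hu2 => nxt_between hz3 ht u hu1 hu2)
  have hfin := delta_bound hz3 x hε1 g1 g2 g3 g4' ha hb
  linarith

/-- In particular, if `z(x) → ∞` and `log z(x) = o(log x)`, all four frequencies tend to `1/2`. -/
theorem tendsto_half (z : ℕ → ℕ) (hz : Tendsto z atTop atTop)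
    (hz' : Tendsto (fun x : ℕ => Real.log (z x) / Real.log x) atTop (𝓝 0))
    (a b : ℕ) (ha : a = 1 ∨ a = 3) (hb : b = 1 ∨ b = 3) :
    Tendsto (fun x : ℕ => delta (RoughTwin (z x)) x a b) atTop (𝓝 (1 / 2)) := by
  rw [Metric.tendsto_nhds]
  intro η hη
  obtain ⟨K, z₀, hK⟩ := result (η / 2) (by positivity)
  have hsmall : ∀ᶠ x : ℕ in atTop, Real.log (z x) / Real.log x < 1 / (K + 1) :=
    hz'.eventually (gt_mem_nhds (by positivity))
  filter_upwards [hz.eventually_ge_atTop z₀, hz.eventually_ge_atTop 1, hsmall,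
    eventually_ge_atTop 2] with x h1 h2 h3 h4
  have hx0 : (2 : ℝ) ≤ x := by exact_mod_cast h4
  have hlogx : 0 < Real.log x := Real.log_pos (by linarith)
  have hz0 : (1 : ℝ) ≤ z x := by exact_mod_cast h2
  have hlogz : 0 ≤ Real.log (z x) := Real.log_nonneg hz0
  have hpow : z x ^ K ≤ x := by
    have e1 : ((z x : ℕ) : ℝ) ^ K ≤ x := by
      rw [← Real.log_le_log_iff (by positivity) (by linarith), Real.log_pow]
      rw [div_lt_iff₀ hlogx] at h3
      have e2 : ((K : ℝ) + 1) * Real.log (z x) ≤ Real.log x := by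
        have e3 := mul_le_mul_of_nonneg_left h3.le (show (0 : ℝ) ≤ (K : ℝ) + 1 by positivity)
        have e4 : ((K : ℝ) + 1) * (1 / ((K : ℝ) + 1) * Real.log x) = Real.log x := by
          field_simp
        linarith
      linarith
    exact_mod_cast e1
  have hfin := hK (z x) x h1 hpow a b ha hb
  rw [Real.dist_eq]
  linarith

end Pool.Agent.Results.MP_74f661_nt.RoughTwinTransitions
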