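import Mathlib
import Pool.Agent.Helper88.BiasMain

/-!
# The second order term of the transitions mod 4 in random models of the twin prime pairs

Problem MP_74f661_nt.  `R n` is the event that `n` is chosen (the chosen integers model the first
members of twin prime pairs; all are odd), adapted to a filtration `ℱ`.  The conditional
probability of choosing `n + 1` given the past is `v (n+1) / log^2 (n+1) + o(1 / log^4 n)`, where
`v ≥ 0` is periodic of period `4 q`, vanishes at even integers, is not identically zero and has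
the same sum over the classes `1` and `3` modulo 4 in a period (for instance the sieved densities
`C * 1_{n ≡ 5 mod 6}`, or `C` times the indicator of `n (n+2)` being coprime to `4 q`).

Then almost surely, for all `a, b ∈ {1, 3}`,
`log^2 x * (δ(x;4;a|b) - 1/2) → -κ` if `a = b` and `→ κ` if `a ≠ b`,
with `κ = (∑_{n < 4q} v(n)^2) / (4 ∑_{n < 4q} v(n)) > 0`.
-/

open MeasureTheory ProbabilityTheory Filter

namespace Pool.Agent.Results.MP_74f661_nt.SecondOrderBias

theorem result {Ω : Type*} [mΩ : MeasurableSpace Ω] (μ : Measure Ω) [IsProbabilityMeasure μ]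
    (ℱ : Filtration ℕ mΩ) (R : ℕ → Set Ω) (hR : ∀ n, MeasurableSet[ℱ n] (R n))
    (hodd : ∀ n ω, ω ∈ R n → n % 4 = 1 ∨ n % 4 = 3)
    (q : ℕ) (hq : 0 < q) (v : ℕ → ℝ) (hper : ∀ n, v (n + 4 * q) = v n) (hv : ∀ n, 0 ≤ v n)
    (heven : ∀ n, n % 2 = 0 → v n = 0)
    (hbal : ∑ n ∈ Finset.range (4 * q), ((ZMod.χ₄ (n : ZMod 4) : ℤ) : ℝ) * v n = 0)
    (hpos : 0 < ∑ n ∈ Finset.range (4 * q), v n)
    (hint : ∀ᵐ ω ∂μ, Tendsto (fun n : ℕ =>
      ((μ[(R (n + 1)).indicator (fun _ => (1 : ℝ)) | ℱ n]) ω -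
        v (n + 1) / Real.log ((n : ℝ) + 1) ^ 2) * Real.log ((n : ℝ) + 1) ^ 4) atTop (nhds 0)) :
    ∀ᵐ ω ∂μ, ∀ a b : ℕ, (a = 1 ∨ a = 3) → (b = 1 ∨ b = 3) →
      Tendsto (fun x : ℝ => Real.log x ^ 2 *
        (({n : ℕ | (n : ℝ) ≤ x ∧ ω ∈ R n ∧ n % 4 = a ∧
          ∃ m, n < m ∧ ω ∈ R m ∧ (∀ k, n < k → k < m → ω ∉ R k) ∧ m % 4 = b}.ncard : ℝ) /
        ({n : ℕ | (n : ℝ) ≤ x ∧ ω ∈ R n ∧ n % 4 = a}.ncard : ℝ) - 1 / 2)) atTop
        (nhds ((if a = b then -1 else 1) *
          ((∑ n ∈ Finset.range (4 * q), v n ^ 2) / (4 * ∑ n ∈ Finset.range (4 * q), v n)))) := by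
  have hV : Pool.Agent.Helper88.Bias.VDat v q :=
    { hq := hq
      hper := hper
      hv0 := hv
      heven := heven
      hbal := by
        rw [← hbal]
        exact Finset.sum_congr rfl fun n _ => by rw [Pool.Agent.Helper88.Twin.chi_eq]
      hpos := hpos }
  filter_upwards [Pool.Agent.Helper88.Bias.bias_main hR hodd hV hint] with ω hω a b ha hb
  have h1 := Pool.Agent.Helper88.Bias.real_x (hω.final ha hb)
  refine h1.congr' ?_
  filter_upwards [eventually_ge_atTop (0 : ℝ)] with x hx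
  rw [Pool.Agent.Helper88.Twin.PP_eq_ncard hodd, Pool.Agent.Helper88.Twin.pi_eq_ncard hodd]
  have hfl : ∀ n : ℕ, n ≤ ⌊x⌋₊ ↔ (n : ℝ) ≤ x := fun n => Nat.le_floor_iff hx
  simp only [hfl]

end Pool.Agent.Results.MP_74f661_nt.SecondOrderBias
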